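import Pool.Agent.TH216.HDN

set_option autoImplicit false

/-! # The condition on the faces of the Newton polyhedron, in terms of the dual polyhedron -/

namespace Pool.Agent.T2h14.NC

open Pool.Agent.TH216.HD

variable {r n : ℕ}

/-- The face `Φ(A, B)` of the dual polyhedron `{a ≥ 0 : ⟨a, v j⟩ ≥ 1 for all j}`: the points `a` with
`a i = 0` for `i ∉ A`, and `⟨a, v j⟩ = 1` for `j ∈ B`. The vertices of the dual polyhedron are the
`a / N_a` for the facets `a` of the Newton polyhedron with `N_a > 0`. -/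
def Dual (v : Fin r → Fin n → ℕ) (A : Finset (Fin n)) (B : Finset (Fin r)) : Set (Fin n → ℚ) :=
  {a | (∀ i, 0 ≤ a i) ∧ (∀ i, i ∉ A → a i = 0) ∧ (∀ j, 1 ≤ ∑ i, a i * (v j i : ℚ)) ∧
    ∀ j ∈ B, ∑ i, a i * (v j i : ℚ) = 1}

/-- The condition on the candidate pole `-σ`. For all sets `A` of variables and `B ⊆ V` of exponents
such that the face `Φ(A, B)` is not empty, `∑ a_i = σ` for all `a ∈ Φ(A, B)` (all the facets which
contain the face have the candidate pole `-σ`), and every variable in `A` occurs in one of the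
`x ^ (v j)`, `j ∈ B`, one of the following holds:
* the vectors `(v j i)_{i ∈ A}`, `j ∈ B`, are linearly independent (the face is a simplex);
* there are a variable `x_i`, `i ∈ A`, and an exponent `v j0`, `j0 ∈ V`, with `v j0 i = 1`, such that for
  all `a ∈ Φ(A, B)` we have `a i ≠ 0`, and `x_i` does not occur in the other `x ^ (v j)`, `j ∈ V`, with
  `⟨a, v j⟩ = 1` (the facets which contain the face are B1 in a common direction, with the same
  apex). -/
def DualV (v : Fin r → Fin n → ℕ) (V : Finset (Fin r)) (σ : ℚ) : Prop :=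
  ∀ (A : Finset (Fin n)) (B : Finset (Fin r)), B ⊆ V → (Dual v A B).Nonempty →
    (∀ a ∈ Dual v A B, ∑ i, a i = σ) → (∀ i ∈ A, ∃ j ∈ B, v j i ≠ 0) →
    (∀ w : Fin r → ℚ, (∀ j, j ∉ B → w j = 0) → (∀ i ∈ A, ∑ j, w j * (v j i : ℚ) = 0) →
      ∀ j, w j = 0) ∨
    ∃ i ∈ A, ∃ j0 ∈ V, v j0 i = 1 ∧ ∀ a ∈ Dual v A B, a i ≠ 0 ∧
      ∀ j ∈ V, j ≠ j0 → ∑ x, a x * (v j x : ℚ) = 1 → v j i = 0

/-- Every candidate pole `-|a| / N_a` is an integer, or agrees modulo integers with the candidate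
pole of a facet which contains a simplex which is not B1, or satisfies `DualV`. -/
def HypD (v : Fin r → Fin n → ℕ) (V : Finset (Fin r)) : Prop :=
  ∀ a : Fin n → ℕ, IsRay v a → 0 < ordA v a → ordA v a ∣ ∑ i, a i ∨
    (∃ a' : Fin n → ℕ, 0 < ordA v a' ∧ NonB1 v False a' ∧ ∃ z : ℤ, lev v a = lev v a' + z) ∨
    DualV v V (lev v a)

end Pool.Agent.T2h14.NC
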