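import Pool.Agent.TH216.ND.Nd2
import Pool.Agent.T2h14.NC.Defs

set_option autoImplicit false

/-! # The recurrences at the levels which satisfy the condition on the faces -/

namespace Pool.Agent.T2h14.NC

open Pool.Agent.TH216.HD (HullV Spans)
open Pool.Agent.TH216.ND
open Pool.Agent.TH216.MF (HypS Pt Forced InC RelG KilU KRelJ RecJ recJ_gen krelJ_phi aJ_phi)
open Pool.Agent.TH216.MC (HB)
open Pool.Agent.W425.SV (Kil1)

variable {r N : ℕ}

lemma mem_Kp' {v : Fin r → Fin N → ℕ} {V : Finset (Fin r)} (hV : ∀ j, HullV v V j) (j : Fin r) :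
    j ∈ Kp v V ↔ j ∈ V := by
  rw [mem_Kp]
  exact ⟨fun h => h.resolve_right fun h' => h' (hV j), Or.inl⟩

lemma spans_of_hull {v : Fin r → Fin N → ℕ} {V : Finset (Fin r)} (hV : ∀ j, HullV v V j) :
    Spans v V := by
  intro j
  obtain ⟨l, h1, h2, h3, h4⟩ := hV j
  exact ⟨l, h1, h2, h3, fun i => (h4 i).le⟩

lemma ge_of_hull {v : Fin r → Fin N → ℕ} {V : Finset (Fin r)} (hV : ∀ j, HullV v V j)
    (a : Fin N → ℚ) (h : ∀ j ∈ V, 1 ≤ ∑ i, a i * (v j i : ℚ)) (j : Fin r) :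
    1 ≤ ∑ i, a i * (v j i : ℚ) := by
  obtain ⟨l, h1, h2, h3, h4⟩ := hV j
  have h5 : ((∑ i, a i * (v j i : ℚ) : ℚ) : ℝ) =
      ∑ k, l k * ((∑ i, a i * (v k i : ℚ) : ℚ) : ℝ) := by
    push_cast
    have e1 : ∀ k, l k * ∑ i, (a i : ℝ) * (v k i : ℝ) = ∑ i, (a i : ℝ) * (l k * (v k i : ℝ)) := by
      intro k
      rw [Finset.mul_sum]
      exact Finset.sum_congr rfl fun i _ => by ring
    rw [Finset.sum_congr rfl fun k _ => e1 k, Finset.sum_comm]
    refine Finset.sum_congr rfl fun i _ => ?_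
    rw [← Finset.mul_sum, h4 i]
  have h6 : (1 : ℝ) ≤ ∑ k, l k * ((∑ i, a i * (v k i : ℚ) : ℚ) : ℝ) := by
    rw [← h3]
    refine Finset.sum_le_sum fun k _ => ?_
    by_cases hk : k ∈ V
    · have h7 : (1 : ℝ) ≤ ((∑ i, a i * (v k i : ℚ) : ℚ) : ℝ) := by exact_mod_cast h k hk
      nlinarith [h1 k]
    · rw [h2 k hk, zero_mul]
  rw [← h5] at h6
  exact_mod_cast h6

/-- the condition for the kept exponents -/
theorem hypS_of_dual {v : Fin r → Fin N → ℕ} {V : Finset (Fin r)} (hV : ∀ j, HullV v V j)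
    (σ : ℚ) (h : DualV v V σ) : HypS (vK v V) (σ : ℝ) := by
  classical
  intro A Z hne hconst hprem
  set B : Finset (Fin r) := (Finset.univ \ Z).image (iK v V) with hB
  have hmemB : ∀ x, x ∉ Z → iK v V x ∈ B := fun x hx =>
    Finset.mem_image_of_mem _ (Finset.mem_sdiff.2 ⟨Finset.mem_univ _, hx⟩)
  have hKV : ∀ x, iK v V x ∈ V := fun x => (mem_Kp' hV _).1 (iK_mem v V x)
  have hPt : Pt (vK v V) A Z = Dual v A B := by
    ext a
    constructor
    · rintro ⟨h1, h2, h3, h4⟩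
      refine ⟨h1, h2, ge_of_hull hV a fun j hj => ?_, fun j hj => ?_⟩
      · obtain ⟨x, rfl⟩ := iK_surj v V ((mem_Kp' hV j).2 hj)
        exact h3 x
      · obtain ⟨x, hx, rfl⟩ := Finset.mem_image.1 hj
        exact h4 x (Finset.mem_sdiff.1 hx).2
    · rintro ⟨h1, h2, h3, h4⟩
      exact ⟨h1, h2, fun x => h3 _, fun x hx => h4 _ (hmemB x hx)⟩
  have hBV : B ⊆ V := by
    intro j hj
    obtain ⟨x, -, rfl⟩ := Finset.mem_image.1 hj
    exact hKV x
  rw [hPt] at hne
  rcases h A B hBV hne (fun a ha => by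
      have := hconst a (hPt ▸ ha)
      exact_mod_cast this) (fun i hi => by
      obtain ⟨x, hx, hxi⟩ := hprem i hi
      exact ⟨iK v V x, hmemB x hx, hxi.ne'⟩) with h1 | ⟨i, hi, j0, hj0, hv1, h2⟩
  · left
    intro w hw1 hw2 x
    set W : Fin r → ℚ := fun j => if hx : ∃ x, iK v V x = j then w hx.choose else 0 with hW
    have hWi : ∀ x, W (iK v V x) = w x := by
      intro x
      have h5 : ∃ x', iK v V x' = iK v V x := ⟨x, rfl⟩
      rw [hW]
      simp only
      rw [dif_pos h5, iK_inj v V h5.choose_spec]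
    have h4 := h1 W (fun j hj => by
      by_cases hx : ∃ x, iK v V x = j
      · obtain ⟨x, rfl⟩ := hx
        rw [hWi]
        by_contra hne
        exact hj (hmemB x fun hxZ => hne (hw2 x hxZ))
      · rw [hW]
        simp only
        rw [dif_neg hx]) (fun i hi => by
      have h5 := hw1 i hi
      have h6 : ∑ j, W j * (v j i : ℚ) = ∑ x, w x * (vK v V x i : ℚ) := by
        have h7 : ∑ x, w x * (vK v V x i : ℚ) =
            ∑ j ∈ Finset.univ.image (iK v V), W j * (v j i : ℚ) := by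
          rw [Finset.sum_image (fun i _ i' _ h => iK_inj v V h)]
          refine Finset.sum_congr rfl fun x _ => ?_
          rw [hWi]
          rfl
        rw [h7]
        symm
        refine Finset.sum_subset (Finset.subset_univ _) fun j _ hj => ?_
        have h8 : ¬ ∃ x, iK v V x = j := by
          rintro ⟨x, rfl⟩
          exact hj (Finset.mem_image_of_mem _ (Finset.mem_univ _))
        rw [hW]
        simp only
        rw [dif_neg h8, zero_mul]
      rw [h6]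
      exact h5)
    rw [← hWi]
    exact h4 _
  · right
    obtain ⟨x0, rfl⟩ := iK_surj v V ((mem_Kp' hV j0).2 hj0)
    refine ⟨i, hi, x0, hv1, fun a ha => (h2 a (hPt ▸ ha)).1, fun x hx hxi a ha hax => ?_⟩
    have h3 := (h2 a (hPt ▸ ha)).2 (iK v V x) (hKV x) (fun h5 => hx (iK_inj v V h5)) hax
    exact hxi.ne' h3

/-- the bad levels -/
theorem hb_D (hr : 0 < r) (v : Fin r → Fin N → ℕ) (hv : Function.Injective v)
    (V : Finset (Fin r)) (hV : ∀ j, HullV v V j) (P : ℚ → Prop)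
    (hP : ∀ α, ¬ P α → ∃ (θ : Fin (Kp v V).card → ℤ) (p : Polynomial ℂ),
      RelG (vK v V) (Kil1 (vK v V)) (KilU (vK v V) θ) p ∧ p.eval (α : ℂ) ≠ 0) :
    HB v fun σ => DualV v V σ ∧ ¬ P (-σ) := by
  classical
  have hcard := (gord_vK hr v V (spans_of_hull hV) 0).1
  rintro J q hq e he T0 hT0 σ ⟨hL, hPσ⟩ hlog
  obtain ⟨θ, p, hrel, hp⟩ := hP _ hPσ
  have hma : ∀ j', ∃ j, v j = vK v V j' := fun j' => ⟨iK v V j', rfl⟩
  have hmb : ∀ j, InC (vK v V) Finset.univ (v j) := inC_all v V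
  have he' := krelJ_phi v (vK v V) hv hma q J e he
  have h1 : ((-Real.log ‖T0‖ / Real.log q : ℝ) : ℂ) = ((-σ : ℚ) : ℂ) := by
    rw [neg_div, hlog]
    push_cast
    rfl
  obtain ⟨Q, hQ, hrec⟩ := recJ_gen q hq (vK v V) p θ hrel J _ he' T0 hT0
    (by rw [h1]; exact hp) (by rw [hlog]; exact hypS_of_dual hV σ hL)
  refine ⟨Q, hQ, ?_⟩
  filter_upwards [hrec] with t ht
  rw [← ht]
  refine Finset.sum_congr rfl fun m _ => ?_
  rw [aJ_phi v (vK v V) hr hcard hma hmb]

end Pool.Agent.T2h14.NC
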