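import Pool.Agent.T2h14.NC.Yz

set_option autoImplicit false

/-! # The rays of `G + y z` -/

namespace Pool.Agent.T2h14.NC

open Pool.Agent.Y229.MS (exyz cyz)
open Pool.Agent.W426.SM (gord face IsRay)
open Pool.Agent.W803.SM (gord_le exists_gord)

variable {r M : ℕ}

/-- **The rays of `G + y z` come from those of `G`.** -/
theorem ray_exyz (hr : 0 < r) (v : Fin r → Fin M → ℕ) (a : Fin (M + 2) → ℕ)
    (ha : IsRay (exyz v) a) (hg : 0 < gord (exyz v) a) :
    IsRay v (fun i => a (Fin.castAdd 2 i)) ∧
      gord v (fun i => a (Fin.castAdd 2 i)) = gord (exyz v) a ∧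
      a (Fin.natAdd M 0) + a (Fin.natAdd M 1) = gord (exyz v) a := by
  classical
  have hne : Nonempty (Fin r) := ⟨⟨0, hr⟩⟩
  set x : Fin M → ℕ := fun i => a (Fin.castAdd 2 i) with hx
  set g := gord (exyz v) a with hgdef
  set α := a (Fin.natAdd M 0) with hα
  set β := a (Fin.natAdd M 1) with hβ
  obtain ⟨ha0, hray⟩ := ha
  -- the value of the order
  have hle : ∀ j, g ≤ ∑ i, x i * v j i := by
    intro j
    have h1 := gord_le (exyz v) a j.succ
    rw [sumN_succ] at h1
    exact h1
  have hle0 : g ≤ α + β := by
    have h1 := gord_le (exyz v) a 0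
    rw [sumN_zero] at h1
    exact h1
  have hface0 : face (exyz v) a 0 ↔ α + β = g := by
    unfold face
    rw [sumN_zero]
  have hfaces : ∀ j : Fin r, face (exyz v) a j.succ ↔ ∑ i, x i * v j i = g := by
    intro j
    unfold face
    rw [sumN_succ]
  have huz : ∀ u : Fin (M + 2) → ℚ, ∑ i, u i * (exyz v 0 i : ℚ) =
      u (Fin.natAdd M 0) + u (Fin.natAdd M 1) := fun u => sum_zero v u
  have hus : ∀ (u : Fin (M + 2) → ℚ) (j : Fin r), ∑ i, u i * (exyz v j.succ i : ℚ) =
      ∑ i : Fin M, u (Fin.castAdd 2 i) * (v j i : ℚ) := fun u j => sum_succ v u j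
  -- the exponent `y z` is on the face
  have h1 : α + β = g := by
    by_contra hcon
    have hlt : g < α + β := lt_of_le_of_ne hle0 (Ne.symm hcon)
    obtain ⟨i, hi⟩ : ∃ i : Fin 2, a (Fin.natAdd M i) ≠ 0 := by
      by_contra h2
      push Not at h2
      rw [hα, hβ, h2 0, h2 1] at hlt
      omega
    obtain ⟨t, ht⟩ := hray (Fin.append (fun _ => 0) (fun i' => if i' = i then 1 else 0))
      (fun i' => by
        refine Fin.addCases (fun i' => ?_) (fun i' => ?_) i'
        · intro _
          rw [Fin.append_left]
        · intro h2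
          rw [Fin.append_right, if_neg]
          rintro rfl
          exact hi h2) (fun j j' hj hj' => by
        have h2 : ∀ j, face (exyz v) a j → ∃ j1 : Fin r, j = j1.succ := by
          intro j hj
          induction j using Fin.cases with
          | zero => exact absurd (hface0.1 hj) hcon
          | succ j => exact ⟨j, rfl⟩
        obtain ⟨j1, rfl⟩ := h2 j hj
        obtain ⟨j2, rfl⟩ := h2 j' hj'
        rw [hus, hus]
        simp)
    have h3 := ht (Fin.natAdd M i)
    rw [Fin.append_right, if_pos rfl] at h3
    have ht0 : t ≠ 0 := by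
      rintro rfl
      rw [zero_mul] at h3
      exact one_ne_zero h3
    have h4 : ∀ i', x i' = 0 := by
      intro i'
      have h5 := ht (Fin.castAdd 2 i')
      rw [Fin.append_left] at h5
      rcases mul_eq_zero.1 h5.symm with h6 | h6
      · exact absurd h6 ht0
      · exact_mod_cast h6
    have h5 := hle ⟨0, hr⟩
    rw [Finset.sum_eq_zero fun i' _ => by rw [h4 i', zero_mul]] at h5
    omega
  -- some exponent of `G` is on the face
  have h2 : gord v x = g := by
    obtain ⟨j, hj⟩ := exists_gord hr v x
    refine le_antisymm ?_ (hj ▸ hle j)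
    by_contra hcon
    push Not at hcon
    have hno : ∀ j : Fin r, ¬ face (exyz v) a j.succ := by
      intro j' hj'
      have h3 := gord_le v x j'
      rw [(hfaces j').1 hj'] at h3
      omega
    have hxne : ∃ i, x i ≠ 0 := by
      by_contra h3
      push Not at h3
      have h4 := gord_le v x ⟨0, hr⟩
      rw [Finset.sum_eq_zero fun i' _ => by rw [h3 i', zero_mul]] at h4
      omega
    obtain ⟨i, hi⟩ := hxne
    obtain ⟨t, ht⟩ := hray (Fin.append (fun i' => if i' = i then 1 else 0) (fun _ => 0))
      (fun i' => by
        refine Fin.addCases (fun i' => ?_) (fun i' => ?_) i'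
        · intro h3
          rw [Fin.append_left, if_neg]
          rintro rfl
          exact hi h3
        · intro _
          rw [Fin.append_right]) (fun j j' hj hj' => by
        have h3 : ∀ j, face (exyz v) a j → j = 0 := by
          intro j hj
          induction j using Fin.cases with
          | zero => rfl
          | succ j => exact absurd hj (hno j)
        rw [h3 j hj, h3 j' hj'])
    have h3 := ht (Fin.castAdd 2 i)
    rw [Fin.append_left, if_pos rfl] at h3
    have ht0 : t ≠ 0 := by
      rintro rfl
      rw [zero_mul] at h3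
      exact one_ne_zero h3
    have h4 : ∀ i', a (Fin.natAdd M i') = 0 := by
      intro i'
      have h5 := ht (Fin.natAdd M i')
      rw [Fin.append_right] at h5
      rcases mul_eq_zero.1 h5.symm with h6 | h6
      · exact absurd h6 ht0
      · exact_mod_cast h6
    rw [hα, hβ, h4 0, h4 1] at h1
    omega
  refine ⟨⟨?_, fun u hu hconst => ?_⟩, h2, h1⟩
  · intro h3
    have h4 := hle ⟨0, hr⟩
    rw [Finset.sum_eq_zero fun i' _ => by rw [h3]; simp] at h4
    omega
  · obtain ⟨j0, hj0⟩ := exists_gord hr v x
    have hj0' : face v x j0 := hj0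
    set s : ℚ := ∑ i, u i * (v j0 i : ℚ) with hs
    obtain ⟨i, hi⟩ : ∃ i : Fin 2, a (Fin.natAdd M i) ≠ 0 := by
      by_contra h3
      push Not at h3
      rw [hα, hβ, h3 0, h3 1] at h1
      omega
    have hval : ∀ j, face (exyz v) a j → ∑ i', (Fin.append u (fun i' => if i' = i then s else 0) :
        Fin (M + 2) → ℚ) i' * (exyz v j i' : ℚ) = s := by
      intro j hj
      induction j using Fin.cases with
      | zero =>
        rw [huz, Fin.append_right, Fin.append_right]
        fin_cases i <;> simp
      | succ j =>
        rw [hus]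
        simp only [Fin.append_left]
        refine hconst j j0 ?_ hj0'
        unfold face
        rw [h2]
        exact (hfaces j).1 hj
    obtain ⟨t, ht⟩ := hray (Fin.append u (fun i' => if i' = i then s else 0))
      (fun i' => by
        refine Fin.addCases (fun i' => ?_) (fun i' => ?_) i'
        · intro h3
          rw [Fin.append_left]
          exact hu i' h3
        · intro h3
          rw [Fin.append_right, if_neg]
          rintro rfl
          exact hi h3) (fun j j' hj hj' => by rw [hval j hj, hval j' hj'])
    refine ⟨t, fun i' => ?_⟩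
    have h3 := ht (Fin.castAdd 2 i')
    rw [Fin.append_left] at h3
    exact h3

end Pool.Agent.T2h14.NC
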