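import Pool.Agent.T2h14.NC.Hyp
import Pool.Agent.T2h14.NC.Rays
import Pool.Agent.Y229.MS.Fin

set_option autoImplicit false

/-! # Motivic zeta functions of stably nondegenerate polynomials -/

namespace Pool.Agent.T2h14.NC

open MvPolynomial Pool.Agent.H628R4.TP
open Pool.Agent.Y229.MS hiding main
open Pool.Agent.Y229.RE (stab ex)
open Pool.Agent.Y229.PG (BecomesG becomes_global)
open Pool.Agent.TH216.HD (HullV Nondegenerate)
open Pool.Agent.TH216.ND (PW rel_nd)
open Pool.Agent.TH216.MC (HB pos_of_ray)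
open Pool.Agent.W425.MM (relAll of_global a5 nonG_of)
open Pool.Agent.W425.ND (spa Nondeg prodb prodb_eval parts spa_const)
open Pool.Agent.W425.SG (UnitEq)
open Pool.Agent.W426.SM (gord face IsRay)
open Pool.Agent.W803.SM (gord_le exists_gord)
open Pool.Agent.W749.JI (fam)
open Pool.Agent.W428.MOT (Pt Constr ratRing Lu MK zeta sp)
open Pool.Agent.W375.MG (zetaG Good JetG ratRing_mono)

section one

variable {N r : ℕ} {k : Type} [Field k] [Algebra k ℂ]

/-- the pairs of the rays which are needed -/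
theorem fst_nd (hr : 0 < r) (v : Fin r → Fin N → ℕ) (hv : Function.Injective v)
    (hv0 : ∀ j, v j ≠ 0) (c : Fin r → k) (hc : ∀ j, c j ≠ 0)
    (hnd : Nondegenerate v (fun j => algebraMap k ℂ (c j))) (V : Finset (Fin r))
    (hV : ∀ j, HullV v V j) :
    ∃ S : Finset (ℤ × ℤ),
      (∀ p ∈ S, ∃ a : Fin N → ℕ, IsRay v a ∧ 0 < gord v a ∧
        p = (-((∑ i, a i : ℕ) : ℤ), (gord v a : ℤ)) ∧
        (DualV v V (((∑ i, a i : ℕ) : ℚ) / gord v a) → ∀ b : Polynomial ℂ,
          IsBFunction (spa v (fun j => algebraMap k ℂ (c j))) b →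
            ∃ i : ℤ, b.eval (((-(((∑ i, a i : ℕ) : ℚ) / gord v a) : ℚ) : ℂ) - i) = 0)) ∧
      ∀ (K : Type) [Field K] [Algebra k K] (W : Set (Pt K (Fin N)))
        (E : Set (AlgebraicClosure K)), Constr W → Good E →
        fst' K * zetaG (spa v (fun j => algebraMap k K (c j))) W E ∈ ratRing K S := by
  classical
  have hkc : CharZero k := RingHom.charZero (algebraMap k ℂ)
  have hnd' : Nondeg v (fun j => algebraMap k ℂ (c j)) := hnd
  set f : MvPolynomial (Fin N) ℂ := spa v (fun j => algebraMap k ℂ (c j)) with hf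
  set P : ℚ → Prop := PW False f with hPdef
  obtain ⟨S, hS, hz1⟩ := Pool.Agent.Y824.MS.four v hr _ (hb_D hr v hv V hV P
    (fun α hα => rel_nd hr False v hv _ hnd' V α hα))
  have hsp : ∀ {K : Type} [Field K] (c' : Fin r → K), spa v c' = sp 0 v c' 1 := by
    intro K _ c'
    unfold sp spa
    simp
  refine ⟨S, fun p hp => ?_, ?_⟩
  · obtain ⟨a, ha, hg, hn, rfl⟩ := hS p hp
    refine ⟨a, ha, hg, rfl, fun hD b hb => ?_⟩
    have h1 : P (-(((∑ i, a i : ℕ) : ℚ) / gord v a)) := by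
      by_contra hcon
      exact hn ⟨hD, hcon⟩
    obtain ⟨h2, h3⟩ := of_global v (by omega) _ hv hv0 hnd' b hb
    exact h1 b h2 h3
  · intro K _ _ W E hW hE
    have hK : CharZero K := charZero_of_injective_algebraMap (algebraMap k K).injective
    rw [hsp]
    exact hz1 K _ (nonG_of Pool.Agent.W67.MM.taskB1 k K v c hr hnd')
      (fun j => (map_ne_zero _).2 (hc j)) W E hW hE

/-- the roots from the simplices which are not B1 -/
theorem nonb_root (hr : 0 < r) (v : Fin r → Fin N → ℕ) (hv : Function.Injective v)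
    (hv0 : ∀ j, v j ≠ 0) (c : Fin r → ℂ) (hnd : Nondegenerate v c) (a : Fin N → ℕ)
    (hg : 0 < gord v a) (hN : Pool.Agent.TH216.HD.NonB1 v False a) (b : Polynomial ℂ)
    (hb : IsBFunction (spa v c) b) :
    ∃ i : ℤ, b.eval (((-(((∑ i, a i : ℕ) : ℚ) / gord v a) : ℚ) : ℂ) - i) = 0 := by
  have hne : NeZero r := ⟨by omega⟩
  obtain ⟨-, h3⟩ := of_global v (by omega) _ hv hv0 hnd b hb
  obtain ⟨K, hK⟩ := relAll parts False v _ hv hnd b h3
  have h1 := a5 v False (prodb b K) hK a hg hN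
  rw [prodb_eval, Finset.prod_eq_zero_iff] at h1
  obtain ⟨i, -, hi⟩ := h1
  refine ⟨(i : ℤ), ?_⟩
  rw [← hi]
  congr 1
  push_cast
  ring

end one

/-- roots modulo integers, going down -/
lemma down {b c : Polynomial ℂ} (hb : b = (Polynomial.X + 1) * c) (m : ℕ) (x : ℂ)
    (h : ∃ i : ℤ, ((Polynomial.X + 1) * c.comp (Polynomial.X + Polynomial.C (m : ℂ))).eval
      (x - i) = 0) : ∃ i : ℤ, b.eval (x - i) = 0 := by
  obtain ⟨i, hi⟩ := h
  rw [Polynomial.eval_mul, Polynomial.eval_comp] at hi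
  simp only [Polynomial.eval_add, Polynomial.eval_X, Polynomial.eval_one,
    Polynomial.eval_C] at hi
  rcases mul_eq_zero.1 hi with h1 | h1
  · refine ⟨i, ?_⟩
    rw [hb, Polynomial.eval_mul]
    simp only [Polynomial.eval_add, Polynomial.eval_X, Polynomial.eval_one]
    rw [h1, zero_mul]
  · refine ⟨i - m, ?_⟩
    rw [hb, Polynomial.eval_mul]
    have e : x - ((i - m : ℤ) : ℂ) = x - i + m := by
      push_cast
      ring
    rw [e, h1, mul_zero]

/-- the candidate poles which are integers -/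
lemma root_int {b : Polynomial ℂ} (hb : b.eval (-1) = 0) {s g : ℕ} (hg : 0 < g) (h : g ∣ s) :
    ∃ i : ℤ, b.eval (((-((s : ℚ) / g) : ℚ) : ℂ) - i) = 0 := by
  obtain ⟨t, rfl⟩ := h
  refine ⟨-(t : ℤ) + 1, ?_⟩
  have hgC : ((g : ℕ) : ℂ) ≠ 0 := by exact_mod_cast hg.ne'
  have h1 : (((-(((g * t : ℕ) : ℚ) / g) : ℚ) : ℂ) - ((-(t : ℤ) + 1 : ℤ) : ℂ)) = -1 := by
    push_cast
    field_simp
    ring
  rw [h1, hb]

/-- changing the candidate pole by an integer -/
lemma root_shift {b : Polynomial ℂ} {x y : ℚ} (z : ℤ) (h : x = y + z)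
    (h1 : ∃ i : ℤ, b.eval (((-y : ℚ) : ℂ) - i) = 0) : ∃ i : ℤ, b.eval (((-x : ℚ) : ℂ) - i) = 0 := by
  obtain ⟨i, hi⟩ := h1
  refine ⟨i - z, ?_⟩
  rw [← hi, h]
  congr 1
  push_cast
  ring

lemma spa_deg' {M r : ℕ} (hr : 0 < r) (v : Fin r → Fin M → ℕ) (hv : Function.Injective v)
    (hv0 : ∀ j, v j ≠ 0) (c : Fin r → ℂ) (hc : ∀ j, c j ≠ 0) : (spa v c).totalDegree ≠ 0 := by
  classical
  intro h0
  set j : Fin r := ⟨0, hr⟩
  have hco : coeff (Finsupp.equivFunOnFinite.symm (v j)) (spa v c) = c j := by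
    unfold spa
    rw [coeff_sum]
    have h1 : ∀ j', coeff (Finsupp.equivFunOnFinite.symm (v j)) (C (c j') * ∏ i, X i ^ v j' i) =
        if j' = j then c j' else 0 := by
      intro j'
      have h2 : (C (c j') * ∏ i, X i ^ v j' i : MvPolynomial (Fin M) ℂ) =
          monomial (Finsupp.equivFunOnFinite.symm (v j')) (c j') := by
        rw [monomial_eq, Finsupp.prod_fintype _ _ fun i => pow_zero _]
        rfl
      rw [h2, coeff_monomial]
      by_cases h3 : j' = j
      · rw [if_pos h3, if_pos (by rw [h3])]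
      · rw [if_neg h3, if_neg fun h4 => h3 (hv (Finsupp.equivFunOnFinite.symm.injective h4))]
    rw [Finset.sum_congr rfl fun j' _ => h1 j', Finset.sum_ite_eq' _ j,
      if_pos (Finset.mem_univ _)]
  have hmem : Finsupp.equivFunOnFinite.symm (v j) ∈ (spa v c).support := by
    rw [mem_support_iff, hco]
    exact hc j
  have h1 := le_totalDegree hmem
  rw [h0, Nat.le_zero, Finsupp.sum_fintype _ _ fun _ => rfl] at h1
  apply hv0 j
  funext i
  exact Finset.sum_eq_zero_iff.1 h1 i (Finset.mem_univ i)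

/-- **The main theorem.** -/
theorem main {k : Type} [Field k] [Algebra k ℂ] {n κ r : ℕ} (hr : 0 < r)
    (f : MvPolynomial (Fin n) k) (hf : f.totalDegree ≠ 0)
    (v : Fin r → Fin (n + (κ + κ)) → ℕ) (hv : Function.Injective v) (hv0 : ∀ j, v j ≠ 0)
    (c : Fin r → k) (hc : ∀ j, c j ≠ 0)
    (hnd : Nondegenerate v (fun j => algebraMap k ℂ (c j))) (V : Finset (Fin r))
    (hV : ∀ j, HullV v V j) (hL : HypD v V)
    (hpos : ∀ a : Fin (n + (κ + κ)) → ℕ, IsRay v a → 0 < gord v a → κ * gord v a < ∑ i, a i)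
    (φ : MvPolynomial (Fin (n + (κ + κ))) k ≃ₐ[k] MvPolynomial (Fin (n + (κ + κ))) k)
    (hφ : φ (stabK f κ) = spa v c) :
    ∃ S : Finset (ℤ × ℤ),
      (∀ p ∈ S, p.1 < 0 ∧ 0 < p.2 ∧
        ∀ b : Polynomial ℂ, IsBFunction (map (algebraMap k ℂ) f) b →
          ∃ i : ℤ, b.eval ((p.1 : ℂ) / p.2 - i) = 0) ∧
      ∀ (K : Type) [Field K] [Algebra k K],
        (∀ x : Fin n → K, zeta (map (algebraMap k K) f) x ∈ ratRing K S) ∧
        ∀ (W : Set (Pt K (Fin n))) (E : Set (AlgebraicClosure K)), Constr W → Good E →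
        zetaG (map (algebraMap k K) f) W E ∈ ratRing K S := by
  classical
  set fC : MvPolynomial (Fin n) ℂ := map (algebraMap k ℂ) f with hfC
  have hfC0 : fC.totalDegree ≠ 0 := by
    rw [hfC, totalDegree, support_map_of_injective _ (algebraMap k ℂ).injective]
    exact hf
  set cC : Fin r → ℂ := fun j => algebraMap k ℂ (c j) with hcC
  have hcC0 : ∀ j, cC j ≠ 0 := fun j => (map_ne_zero _).2 (hc j)
  have hbec : BecomesG fC κ (spa v cC) := by
    obtain ⟨ψ, hψ⟩ := Pool.Agent.Y405.MS.bc k ℂ φ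
    refine ⟨ψ, ?_⟩
    have e1 : stab fC κ = map (algebraMap k ℂ) (stabK f κ) := by
      rw [map_stabK]
      rfl
    rw [e1, hψ, hφ, map_spa]
  -- the b-functions
  have hb1 : ∀ c' : Polynomial ℂ, IsBFunction fC ((Polynomial.X + 1) * c') →
      IsBFunction (spa v cC) ((Polynomial.X + 1) *
        c'.comp (Polynomial.X + Polynomial.C (κ : ℂ))) := fun c' h =>
    (becomes_global hfC0 h hbec).2 c' rfl
  have hst : stab (spa v cC) 1 = spa (exyz v) (fun j => algebraMap k ℂ (cyz c j)) := by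
    rw [cyz_map, spa_addyz]
    unfold stab addyz
    rw [Fin.sum_univ_one]
    rfl
  have hb2 : ∀ c' : Polynomial ℂ, IsBFunction fC ((Polynomial.X + 1) * c') →
      IsBFunction (spa (exyz v) (fun j => algebraMap k ℂ (cyz c j))) ((Polynomial.X + 1) *
        (c'.comp (Polynomial.X + Polynomial.C (κ : ℂ))).comp
          (Polynomial.X + Polynomial.C ((1 : ℕ) : ℂ))) := by
    intro c' h
    have h5 := (becomes_global (k := 1) (G := stab (spa v cC) 1) (spa_deg' hr v hv hv0 cC hcC0)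
      (hb1 c' h) ⟨AlgEquiv.refl, rfl⟩).2 _ rfl
    rw [hst] at h5
    exact h5
  have hfac : ∀ b : Polynomial ℂ, IsBFunction fC b → b.eval (-1) = 0 ∧
      ∃ c' : Polynomial ℂ, b = (Polynomial.X + 1) * c' := by
    intro b hb
    have h5 := (becomes_global hfC0 hb hbec).1
    refine ⟨h5, ?_⟩
    obtain ⟨c', hc'⟩ : (Polynomial.X + 1 : Polynomial ℂ) ∣ b := by
      have := Polynomial.dvd_iff_isRoot.2 h5
      simpa using this
    exact ⟨c', hc'⟩
  -- the roots
  have hroot : ∀ a : Fin (n + (κ + κ)) → ℕ, IsRay v a → 0 < gord v a →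
      ∀ b : Polynomial ℂ, IsBFunction fC b →
      (DualV v V (((∑ i, a i : ℕ) : ℚ) / gord v a) →
        ∃ i : ℤ, b.eval (((-(((∑ i, a i : ℕ) : ℚ) / gord v a) : ℚ) : ℂ) - i) = 0) →
      ∃ i : ℤ, b.eval (((-(((∑ i, a i : ℕ) : ℚ) / gord v a) : ℚ) : ℂ) - i) = 0 := by
    intro a ha hg b hb hD
    obtain ⟨hb1', c', hc'⟩ := hfac b hb
    rcases hL a ha hg with h1 | ⟨a', hg', hN, z, hz⟩ | h1
    · exact root_int hb1' hg h1
    · refine root_shift z hz ?_
      exact down hc' κ _ (nonb_root hr v hv hv0 cC hnd a' hg' hN _ (hb1 c' (hc' ▸ hb)))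
    · exact hD h1
  obtain ⟨S1, hS1, hz1⟩ := fst_nd hr v hv hv0 c hc hnd V hV
  have hnd2 : Nondegenerate (exyz v) (fun j => algebraMap k ℂ (cyz c j)) := by
    rw [cyz_map]
    exact nondeg_exyz hr hnd
  obtain ⟨S2, hS2, hz2⟩ := fst_nd (Nat.succ_pos r) (exyz v) (exyz_inj hv) (exyz_ne hv0) (cyz c)
    (cyz_ne hc) hnd2 (Vyz V) (hull_exyz hV)
  set S : Finset (ℤ × ℤ) := insert (-1, 1) (S1.image (fun q => (q.1 + κ * q.2, q.2)) ∪
    S2.image (fun q => (q.1 + ((κ + 1 : ℕ) : ℤ) * q.2, q.2))) with hS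
  have hS1p : ∀ p ∈ S1, 0 < p.2 := by
    intro p hp
    obtain ⟨a, ha, hg, rfl, -⟩ := hS1 p hp
    exact Int.natCast_pos.2 hg
  have hS2p : ∀ p ∈ S2, 0 < p.2 := by
    intro p hp
    obtain ⟨a, ha, hg, rfl, -⟩ := hS2 p hp
    exact Int.natCast_pos.2 hg
  -- the conclusion for a pair
  have hpair : ∀ a : Fin (n + (κ + κ)) → ℕ, 0 < gord v a → κ * gord v a < ∑ i, a i →
      (∀ b : Polynomial ℂ, IsBFunction fC b →
        ∃ i : ℤ, b.eval (((-(((∑ i, a i : ℕ) : ℚ) / gord v a) : ℚ) : ℂ) - i) = 0) →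
      (-((∑ i, a i : ℕ) : ℤ) + κ * (gord v a : ℤ)) < 0 ∧ 0 < (gord v a : ℤ) ∧
      ∀ b : Polynomial ℂ, IsBFunction fC b →
        ∃ i : ℤ, b.eval (((-((∑ i, a i : ℕ) : ℤ) + κ * (gord v a : ℤ) : ℤ) : ℂ) /
          ((gord v a : ℤ) : ℂ) - i) = 0 := by
    intro a hg hlt h
    have h2 : ((κ * gord v a : ℕ) : ℤ) < ((∑ i, a i : ℕ) : ℤ) := by exact_mod_cast hlt
    refine ⟨by push_cast at h2 ⊢; linarith, Int.natCast_pos.2 hg, fun b hb => ?_⟩
    obtain ⟨i, hi⟩ := h b hb
    refine ⟨i + κ, ?_⟩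
    rw [← hi]
    congr 1
    have hgC : ((gord v a : ℕ) : ℂ) ≠ 0 := by exact_mod_cast hg.ne'
    push_cast
    field_simp
    ring
  refine ⟨S, fun p hp => ?_, fun K _ _ => ?_⟩
  · rcases Finset.mem_insert.1 hp with rfl | hp
    · refine ⟨by norm_num, by norm_num, fun b hb => ⟨0, ?_⟩⟩
      have h6 : ((((-1 : ℤ) : ℂ) / ((1 : ℤ) : ℂ)) - ((0 : ℤ) : ℂ)) = -1 := by norm_num
      simp only [h6]
      exact (hfac b hb).1
    · rcases Finset.mem_union.1 hp with hp | hp
      · obtain ⟨q, hq, rfl⟩ := Finset.mem_image.1 hp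
        obtain ⟨a, ha, hg, rfl, hD⟩ := hS1 q hq
        refine hpair a hg (hpos a ha hg) fun b hb => hroot a ha hg b hb fun hDual => ?_
        obtain ⟨-, c', hc'⟩ := hfac b hb
        exact down hc' κ _ (hD hDual _ (hb1 c' (hc' ▸ hb)))
      · obtain ⟨q, hq, rfl⟩ := Finset.mem_image.1 hp
        obtain ⟨a', ha', hg', rfl, hD⟩ := hS2 q hq
        obtain ⟨ha, hgg, hab⟩ := ray_exyz hr v a' ha' hg'
        set a : Fin (n + (κ + κ)) → ℕ := fun i => a' (Fin.castAdd 2 i) with haa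
        have hg : 0 < gord v a := by rw [hgg]; exact hg'
        have hsum : ∑ i, a' i = ∑ i, a i + gord v a := by
          rw [Fin.sum_univ_add, Fin.sum_univ_two, hab, hgg]
        have hgQ : ((gord v a : ℕ) : ℚ) ≠ 0 := by exact_mod_cast hg.ne'
        have hlev : ((∑ i, a' i : ℕ) : ℚ) / gord (exyz v) a' =
            ((∑ i, a i : ℕ) : ℚ) / gord v a + 1 := by
          rw [hsum, ← hgg, Nat.cast_add, add_div, div_self hgQ]
        have h1 := hpair a hg (hpos a ha hg) fun b hb => hroot a ha hg b hb fun hDual => by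
          obtain ⟨-, c', hc'⟩ := hfac b hb
          refine root_shift (-1) (y := ((∑ i, a' i : ℕ) : ℚ) / gord (exyz v) a')
            (by rw [hlev]; push_cast; ring) ?_
          refine down hc' κ _ (down rfl 1 _ (hD ?_ _ (hb2 c' (hc' ▸ hb))))
          rw [hlev]
          exact dual_exyz hDual
        have e : (-((∑ i, a' i : ℕ) : ℤ) + ((κ + 1 : ℕ) : ℤ) * (gord (exyz v) a' : ℤ)) =
            -((∑ i, a i : ℕ) : ℤ) + κ * (gord v a : ℤ) := by
          rw [hsum, ← hgg]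
          push_cast
          ring
        simp only
        rw [e, ← hgg]
        exact h1
  · have hK : CharZero K := by
      have hkc : CharZero k := RingHom.charZero (algebraMap k ℂ)
      exact charZero_of_injective_algebraMap (algebraMap k K).injective
    have hG : ∀ (W : Set (Pt K (Fin n))) (E : Set (AlgebraicClosure K)), Constr W → Good E →
        zetaG (map (algebraMap k K) f) W E ∈ ratRing K S := by
      intro W E hW hE
      have hE' : CE E := ce_good hE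
      set fK : MvPolynomial (Fin n) K := map (algebraMap k K) f with hfK
      obtain ⟨ψ1, hψ1⟩ := Pool.Agent.Y405.MS.itr K fK κ
      obtain ⟨ψ2, hψ2⟩ := Pool.Agent.Y405.MS.bc k K φ
      set ψ := ψ1.trans ψ2 with hψ
      have e1 : ψ (itr fK κ) = spa v fun j => algebraMap k K (c j) := by
        show ψ2 (ψ1 (itr fK κ)) = _
        rw [hψ1, hfK, ← map_stabK, hψ2, hφ, map_spa]
      obtain ⟨ψ', hψ'⟩ := Pool.Agent.Y405.MS.ext K ψ
      have e2 : ψ' (addyz (itr fK κ)) = spa (exyz v) fun j => algebraMap k K (cyz c j) := by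
        rw [hψ', e1, cyz_map, spa_addyz]
      have hW1 : Constr (Witr W κ) := constr_Witr hW κ
      have hW2 : Constr (Wyz (Witr W κ)) := constr_Wyz hW1
      have z1 := hz1 K _ E (constr_pull ψ hW1) hE
      have z2 := hz2 K _ E (constr_pull ψ' hW2) hE
      rw [← e1, zeta_iso Pool.Agent.Z864.MS.three (by ring) ψ _ hW1 hE'] at z1
      rw [← e2, zeta_iso Pool.Agent.Z864.MS.three (by ring) ψ' _ hW2 hE'] at z2
      have z3 := descend t1 Pool.Agent.Y812.MS.two fK hW hE' κ S1 S2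
        (fun p hp => hS1p p hp) (fun p hp => hS2p p hp) z1 z2
      refine ratRing_mono ?_ (zeta_of_fst fK W E _ z3)
      rintro p (rfl | ⟨q, hq, rfl⟩ | ⟨q, hq, rfl⟩)
      · exact Finset.mem_coe.2 (Finset.mem_insert_self _ _)
      · exact Finset.mem_coe.2 (Finset.mem_insert_of_mem (Finset.mem_union_left _
          (Finset.mem_image_of_mem (fun q : ℤ × ℤ => (q.1 + (κ : ℤ) * q.2, q.2)) hq)))
      · exact Finset.mem_coe.2 (Finset.mem_insert_of_mem (Finset.mem_union_right _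
          (Finset.mem_image_of_mem (fun q : ℤ × ℤ =>
            (q.1 + ((κ + 1 : ℕ) : ℤ) * q.2, q.2)) hq)))
    exact ⟨fun x => Pool.Agent.W425.MM.zeta_mem _ x S fun W E hW hE => hG W E hW hE, hG⟩

/-- compositions -/
theorem main_comp {k : Type} [Field k] [Algebra k ℂ] {n κ r : ℕ} (hr : 0 < r)
    (π : Fin r → Fin (κ + 1)) (m : Fin r → Fin (n + κ) → ℕ)
    (hv : Function.Injective (ex π m)) (hv0 : ∀ j, ex π m j ≠ 0)
    (a : Fin r → k) (ha : ∀ j, a j ≠ 0)
    (hnd : Nondegenerate (ex π m) (fun j => algebraMap k ℂ (a j))) (V : Finset (Fin r))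
    (hV : ∀ j, HullV (ex π m) V j) (hL : HypD (ex π m) V)
    (c : Fin κ → k) (hc : ∀ i, c i ≠ 0)
    (p : Fin κ → MvPolynomial (Fin n) k)
    (hl : ∀ i : Fin κ, fam π m a i.succ = C (c i) * X (Fin.natAdd n i) -
      rename (Fin.castAdd κ) (p i)) (f : MvPolynomial (Fin n) k)
    (hff : f = aeval (Fin.append X fun i => C (c i)⁻¹ * p i) (fam π m a 0))
    (hf : f.totalDegree ≠ 0) :
    ∃ S : Finset (ℤ × ℤ),
      (∀ p ∈ S, p.1 < 0 ∧ 0 < p.2 ∧
        ∀ b : Polynomial ℂ, IsBFunction (map (algebraMap k ℂ) f) b →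
          ∃ i : ℤ, b.eval ((p.1 : ℂ) / p.2 - i) = 0) ∧
      ∀ (K : Type) [Field K] [Algebra k K],
        (∀ x : Fin n → K, zeta (map (algebraMap k K) f) x ∈ ratRing K S) ∧
        ∀ (W : Set (Pt K (Fin n))) (E : Set (AlgebraicClosure K)), Constr W → Good E →
        zetaG (map (algebraMap k K) f) W E ∈ ratRing K S := by
  classical
  have hkc : CharZero k := RingHom.charZero (algebraMap k ℂ)
  have hf0 : f ≠ 0 := by
    rintro rfl
    exact hf totalDegree_zero
  obtain ⟨φ, hφ⟩ := graph_phi π m a c hc p hl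
  rw [← hff] at hφ
  exact main hr f hf (ex π m) hv hv0 a ha hnd V hV hL
    (fun u _ hg => ray_pos π m a c hc p hl (hff ▸ hf0) u _ hg fun j => gord_le _ _ j) φ hφ

end Pool.Agent.T2h14.NC
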