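import Pool.Agent.Y229.MS.Ind
import Pool.Agent.T2h14.NC.Defs

set_option autoImplicit false

/-! # The exponents of `G + y z` -/

namespace Pool.Agent.T2h14.NC

open Pool.Agent.TH216.HD (HullV MinAt Nondegenerate)
open Pool.Agent.Y229.MS (exyz cyz)
open Pool.Agent.W426.SM (gord face IsRay)
open Pool.Agent.W803.SM (gord_le exists_gord)

variable {r M : ℕ}

/-- the set of exponents -/
def Vyz (V : Finset (Fin r)) : Finset (Fin (r + 1)) := insert 0 (V.map (Fin.succEmb r))

lemma mem_Vyz (V : Finset (Fin r)) (j : Fin (r + 1)) :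
    j ∈ Vyz V ↔ j = 0 ∨ ∃ j' ∈ V, j'.succ = j := by
  unfold Vyz
  simp

lemma succ_mem_Vyz (V : Finset (Fin r)) (j : Fin r) : j.succ ∈ Vyz V ↔ j ∈ V := by
  rw [mem_Vyz]
  constructor
  · rintro (h | ⟨j', h1, h2⟩)
    · exact absurd h (Fin.succ_ne_zero j)
    · rwa [← Fin.succ_injective _ h2]
  · exact fun h => Or.inr ⟨j, h, rfl⟩

section values

variable (v : Fin r → Fin M → ℕ)

@[simp] lemma exyz_zero_x (i : Fin M) : exyz v 0 (Fin.castAdd 2 i) = 0 := by
  simp [exyz]

@[simp] lemma exyz_zero_y (i : Fin 2) : exyz v 0 (Fin.natAdd M i) = 1 := by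
  simp [exyz]

@[simp] lemma exyz_succ_x (j : Fin r) (i : Fin M) :
    exyz v j.succ (Fin.castAdd 2 i) = v j i := by
  simp [exyz]

@[simp] lemma exyz_succ_y (j : Fin r) (i : Fin 2) : exyz v j.succ (Fin.natAdd M i) = 0 := by
  simp [exyz]

lemma sum_zero {R : Type} [CommRing R] (a : Fin (M + 2) → R) :
    ∑ i, a i * (exyz v 0 i : R) = a (Fin.natAdd M 0) + a (Fin.natAdd M 1) := by
  rw [Fin.sum_univ_add, Fin.sum_univ_two]
  simp

lemma sum_succ {R : Type} [CommRing R] (a : Fin (M + 2) → R) (j : Fin r) :
    ∑ i, a i * (exyz v j.succ i : R) = ∑ i : Fin M, a (Fin.castAdd 2 i) * (v j i : R) := by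
  rw [Fin.sum_univ_add, Fin.sum_univ_two]
  simp

lemma sumN_zero (a : Fin (M + 2) → ℕ) :
    ∑ i, a i * exyz v 0 i = a (Fin.natAdd M 0) + a (Fin.natAdd M 1) := by
  rw [Fin.sum_univ_add, Fin.sum_univ_two]
  simp

lemma sumN_succ (a : Fin (M + 2) → ℕ) (j : Fin r) :
    ∑ i, a i * exyz v j.succ i = ∑ i : Fin M, a (Fin.castAdd 2 i) * v j i := by
  rw [Fin.sum_univ_add, Fin.sum_univ_two]
  simp

end values

lemma exyz_inj {v : Fin r → Fin M → ℕ} (hv : Function.Injective v) :
    Function.Injective (exyz v) := by
  intro j j' h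
  induction j using Fin.cases with
  | zero =>
    induction j' using Fin.cases with
    | zero => rfl
    | succ j' =>
      have h1 := congrFun h (Fin.natAdd M 0)
      simp at h1
  | succ j =>
    induction j' using Fin.cases with
    | zero =>
      have h1 := congrFun h (Fin.natAdd M 0)
      simp at h1
    | succ j' =>
      congr 1
      apply hv
      funext i
      have h1 := congrFun h (Fin.castAdd 2 i)
      simpa using h1

lemma exyz_ne {v : Fin r → Fin M → ℕ} (hv0 : ∀ j, v j ≠ 0) : ∀ j, exyz v j ≠ 0 := by
  intro j h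
  induction j using Fin.cases with
  | zero =>
    have h1 := congrFun h (Fin.natAdd M 0)
    simp at h1
  | succ j =>
    apply hv0 j
    funext i
    have h1 := congrFun h (Fin.castAdd 2 i)
    simpa using h1

/-- the convex hull -/
lemma hull_exyz {v : Fin r → Fin M → ℕ} {V : Finset (Fin r)} (hV : ∀ j, HullV v V j)
    (j : Fin (r + 1)) : HullV (exyz v) (Vyz V) j := by
  classical
  induction j using Fin.cases with
  | zero =>
    refine ⟨fun k => if k = 0 then 1 else 0, fun k => by dsimp only; split_ifs <;> norm_num,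
      fun k hk => ?_, by simp, fun i => by simp⟩
    dsimp only
    rw [if_neg]
    rintro rfl
    exact hk ((mem_Vyz V 0).2 (Or.inl rfl))
  | succ j =>
    obtain ⟨l, h1, h2, h3, h4⟩ := hV j
    refine ⟨Fin.cons 0 l, fun k => ?_, fun k hk => ?_, ?_, fun i => ?_⟩
    · induction k using Fin.cases with
      | zero => simp
      | succ k => simpa using h1 k
    · induction k using Fin.cases with
      | zero => simp
      | succ k =>
        rw [Fin.cons_succ]
        exact h2 k fun h => hk ((succ_mem_Vyz V k).2 h)
    · rw [Fin.sum_univ_succ]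
      simpa using h3
    · rw [Fin.sum_univ_succ]
      simp only [Fin.cons_zero, zero_mul, zero_add, Fin.cons_succ]
      refine Fin.addCases (fun i => ?_) (fun i => ?_) i
      · simpa using h4 i
      · simp

/-- nondegeneracy -/
lemma nondeg_exyz (hr : 0 < r) {v : Fin r → Fin M → ℕ} {a : Fin r → ℂ}
    (h : Nondegenerate v a) : Nondegenerate (exyz v) (cyz a) := by
  classical
  have hne : Nonempty (Fin r) := ⟨⟨0, hr⟩⟩
  rintro w z hz ⟨h1, h2⟩
  by_cases h0 : MinAt (exyz v) w 0
  · have h3 := h2 (Fin.natAdd M 0)
    rw [Fin.sum_univ_succ, if_pos h0, Finset.sum_eq_zero] at h3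
    · simp only [exyz_zero_y, cyz, Fin.cons_zero, Nat.cast_one, mul_one, one_mul, add_zero] at h3
      refine Finset.prod_ne_zero_iff.2 (fun i _ => pow_ne_zero _ (hz i)) h3
    · intro j _
      simp
  · -- the face is a face of `v`
    have hmin : ∀ j : Fin r, MinAt (exyz v) w j.succ ↔
        MinAt v (fun i => w (Fin.castAdd 2 i)) j := by
      intro j
      constructor
      · intro h3 j'
        have h4 := h3 j'.succ
        rw [sum_succ, sum_succ] at h4
        exact h4
      · intro h3 j'
        rw [sum_succ]
        induction j' using Fin.cases with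
        | succ j' =>
          rw [sum_succ]
          exact h3 j'
        | zero =>
          unfold MinAt at h0
          push Not at h0
          obtain ⟨k, hk⟩ := h0
          induction k using Fin.cases with
          | zero => exact absurd hk (lt_irrefl _)
          | succ k =>
            rw [sum_succ] at hk
            exact (h3 k).trans hk.le
    have hprod : ∀ j : Fin r, ∏ i, z i ^ exyz v j.succ i =
        ∏ i : Fin M, z (Fin.castAdd 2 i) ^ v j i := by
      intro j
      rw [Fin.prod_univ_add]
      simp
    refine h (fun i => w (Fin.castAdd 2 i)) (fun i => z (Fin.castAdd 2 i)) (fun i => hz _)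
      ⟨?_, fun i => ?_⟩
    · rw [Fin.sum_univ_succ, if_neg h0, zero_add] at h1
      refine Eq.trans ?_ h1
      refine Finset.sum_congr rfl fun j _ => ?_
      rw [hprod]
      by_cases hj : MinAt v (fun i => w (Fin.castAdd 2 i)) j
      · rw [if_pos hj, if_pos ((hmin j).2 hj)]
        rfl
      · rw [if_neg hj, if_neg fun h' => hj ((hmin j).1 h')]
    · have h3 := h2 (Fin.castAdd 2 i)
      rw [Fin.sum_univ_succ, if_neg h0, zero_add] at h3
      refine Eq.trans ?_ h3
      refine Finset.sum_congr rfl fun j _ => ?_
      rw [hprod, exyz_succ_x]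
      by_cases hj : MinAt v (fun i => w (Fin.castAdd 2 i)) j
      · rw [if_pos hj, if_pos ((hmin j).2 hj)]
        rfl
      · rw [if_neg hj, if_neg fun h' => hj ((hmin j).1 h')]

/-- **The condition on the faces for `G + y z`.** -/
theorem dual_exyz {v : Fin r → Fin M → ℕ} {V : Finset (Fin r)} {σ : ℚ} (h : DualV v V σ) :
    DualV (exyz v) (Vyz V) (σ + 1) := by
  classical
  intro A' B' hB' hne hconst hprem
  set y : Fin (M + 2) := Fin.natAdd M 0 with hy
  set z : Fin (M + 2) := Fin.natAdd M 1 with hz
  -- `0 ∈ B'` as soon as `y` or `z` is in `A'`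
  have h0 : ∀ i : Fin 2, Fin.natAdd M i ∈ A' → (0 : Fin (r + 1)) ∈ B' := by
    intro i hi
    obtain ⟨j, hj, hji⟩ := hprem _ hi
    induction j using Fin.cases with
    | zero => exact hj
    | succ j => simp at hji
  have hyz : ∀ a ∈ Dual (exyz v) A' B', (0 : Fin (r + 1)) ∈ B' → a y + a z = 1 := by
    intro a ha hB
    have := ha.2.2.2 0 hB
    rw [sum_zero] at this
    exact this
  have hcase : ∀ i i' : Fin 2, i ≠ i' → Fin.natAdd M i ∈ A' → Fin.natAdd M i' ∉ A' →
      ∀ a ∈ Dual (exyz v) A' B', a (Fin.natAdd M i) = 1 := by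
    intro i i' hii h1 h2 a ha
    have h3 := hyz a ha (h0 i h1)
    have h4 := ha.2.1 _ h2
    fin_cases i <;> fin_cases i'
    · exact absurd rfl hii
    · simp only [Fin.mk_zero, Fin.mk_one, Fin.zero_eta, Fin.isValue] at h4 h3 ⊢
      rw [hz, h4, add_zero] at h3
      exact h3
    · simp only [Fin.mk_zero, Fin.mk_one, Fin.zero_eta, Fin.isValue] at h4 h3 ⊢
      rw [hy, h4, zero_add] at h3
      exact h3
    · exact absurd rfl hii
  have hone : ∀ i i' : Fin 2, i ≠ i' → Fin.natAdd M i ∈ A' → Fin.natAdd M i' ∉ A' →
      ∃ i ∈ A', ∃ j0 ∈ Vyz V, exyz v j0 i = 1 ∧ ∀ a ∈ Dual (exyz v) A' B', a i ≠ 0 ∧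
        ∀ j ∈ Vyz V, j ≠ j0 → ∑ x, a x * (exyz v j x : ℚ) = 1 → exyz v j i = 0 := by
    intro i i' hii h1 h2
    refine ⟨_, h1, 0, (mem_Vyz V 0).2 (Or.inl rfl), exyz_zero_y v i, fun a ha => ⟨?_, ?_⟩⟩
    · rw [hcase i i' hii h1 h2 a ha]
      exact one_ne_zero
    · intro j _ hj _
      induction j using Fin.cases with
      | zero => exact absurd rfl hj
      | succ j => exact exyz_succ_y v j i
  by_cases h1 : y ∈ A'
  · by_cases h2 : z ∈ A'
    · -- both
      have hB0 := h0 0 h1
      set A : Finset (Fin M) := Finset.univ.filter fun i => Fin.castAdd 2 i ∈ A' with hA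
      set B : Finset (Fin r) := Finset.univ.filter fun j => j.succ ∈ B' with hB
      have hAm : ∀ i, i ∈ A ↔ Fin.castAdd 2 i ∈ A' := fun i => by simp [hA]
      have hBm : ∀ j, j ∈ B ↔ j.succ ∈ B' := fun j => by simp [hB]
      have hdown : ∀ a ∈ Dual (exyz v) A' B', (fun i => a (Fin.castAdd 2 i)) ∈ Dual v A B := by
        rintro a ⟨k1, k2, k3, k4⟩
        refine ⟨fun i => k1 _, fun i hi => k2 _ fun h' => hi ((hAm i).2 h'), fun j => ?_,
          fun j hj => ?_⟩
        · have := k3 j.succ
          rw [sum_succ] at this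
          exact this
        · have := k4 j.succ ((hBm j).1 hj)
          rw [sum_succ] at this
          exact this
      have hup : ∀ a ∈ Dual v A B, (Fin.append a ![1, 0] : Fin (M + 2) → ℚ) ∈
          Dual (exyz v) A' B' := by
        rintro a ⟨k1, k2, k3, k4⟩
        refine ⟨fun i => ?_, fun i hi => ?_, fun j => ?_, fun j hj => ?_⟩
        · refine Fin.addCases (fun i => ?_) (fun i => ?_) i
          · rw [Fin.append_left]
            exact k1 i
          · rw [Fin.append_right]
            fin_cases i <;> simp
        · revert hi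
          refine Fin.addCases (fun i => ?_) (fun i => ?_) i
          · intro hi
            rw [Fin.append_left]
            exact k2 i fun h' => hi ((hAm i).1 h')
          · intro hi
            exfalso
            fin_cases i
            · exact hi h1
            · exact hi h2
        · induction j using Fin.cases with
          | zero =>
            rw [sum_zero, Fin.append_right, Fin.append_right]
            simp
          | succ j =>
            rw [sum_succ]
            simp only [Fin.append_left]
            exact k3 j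
        · induction j using Fin.cases with
          | zero =>
            rw [sum_zero, Fin.append_right, Fin.append_right]
            simp
          | succ j =>
            rw [sum_succ]
            simp only [Fin.append_left]
            exact k4 j ((hBm j).2 hj)
      have hBV : B ⊆ V := fun j hj => (succ_mem_Vyz V j).1 (hB' ((hBm j).1 hj))
      have hne2 : (Dual v A B).Nonempty := by
        obtain ⟨a, ha⟩ := hne
        exact ⟨_, hdown a ha⟩
      have hsum : ∀ a ∈ Dual v A B, ∑ i, a i = σ := by
        intro a ha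
        have h3 := hconst _ (hup a ha)
        rw [Fin.sum_univ_add, Fin.sum_univ_two] at h3
        simp only [Fin.append_left, Fin.append_right, Matrix.cons_val_zero,
          Matrix.cons_val_one] at h3
        linarith
      have hpr : ∀ i ∈ A, ∃ j ∈ B, v j i ≠ 0 := by
        intro i hi
        obtain ⟨j, hj, hji⟩ := hprem _ ((hAm i).1 hi)
        induction j using Fin.cases with
        | zero => simp at hji
        | succ j => exact ⟨j, (hBm j).2 hj, by simpa using hji⟩
      rcases h A B hBV hne2 hsum hpr with k | ⟨i, hi, j0, hj0, hv1, k⟩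
      · left
        intro w hw1 hw2
        have hw0 : w 0 = 0 := by
          have h3 := hw2 _ h1
          rw [Fin.sum_univ_succ, hy, exyz_zero_y, Nat.cast_one, mul_one] at h3
          simpa using h3
        have h4 := k (fun j => w j.succ) (fun j hj => hw1 _ fun h' => hj ((hBm j).2 h'))
          (fun i hi => by
            have h3 := hw2 _ ((hAm i).1 hi)
            rw [Fin.sum_univ_succ] at h3
            simpa using h3)
        intro j
        induction j using Fin.cases with
        | zero => exact hw0
        | succ j => exact h4 j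
      · right
        refine ⟨_, (hAm i).1 hi, j0.succ, (succ_mem_Vyz V j0).2 hj0, by simpa using hv1,
          fun a ha => ?_⟩
        obtain ⟨k1, k2⟩ := k _ (hdown a ha)
        refine ⟨k1, fun j hj hjn hs => ?_⟩
        induction j using Fin.cases with
        | zero => simp
        | succ j =>
          rw [exyz_succ_x]
          rw [sum_succ] at hs
          exact k2 j ((succ_mem_Vyz V j).1 hj) (fun h' => hjn (by rw [h'])) hs
    · exact Or.inr (hone 0 1 (by decide) h1 h2)
  · by_cases h2 : z ∈ A'
    · exact Or.inr (hone 1 0 (by decide) h2 h1)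
    · exfalso
      obtain ⟨a, ha⟩ := hne
      have h3 := ha.2.2.1 0
      rw [sum_zero, ha.2.1 _ h1, ha.2.1 _ h2] at h3
      norm_num at h3

end Pool.Agent.T2h14.NC
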